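import Pool.Agent.Q154.ThreeSpaces

set_option autoImplicit false

/-!
# Three spaces without simultaneous optimal correspondences (MP_029391_gt)
-/

namespace Pool.Agent.Results.MP_029391_gt.FourPointSpaces

section
variable {X Y : Type} [MetricSpace X] [MetricSpace Y]

/-- `S` is a correspondence between `X` and `Y`. -/
def IsCorr (S : Set (X × Y)) : Prop := (∀ x, ∃ y, (x, y) ∈ S) ∧ (∀ y, ∃ x, (x, y) ∈ S)

/-- The distortion of a relation. -/
noncomputable def dis (S : Set (X × Y)) : ℝ :=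
  sSup {r : ℝ | ∃ x y x' y', (x, y) ∈ S ∧ (x', y') ∈ S ∧ r = |dist x x' - dist y y'|}

variable (X Y) in
/-- The Gromov–Hausdorff distance. -/
noncomputable def dGH : ℝ := 1 / 2 * sInf {r : ℝ | ∃ S : Set (X × Y), IsCorr S ∧ r = dis S}

/-- `S` is an optimal correspondence between `X` and `Y`. -/
def IsOptimal (S : Set (X × Y)) : Prop := IsCorr S ∧ dis S = 2 * dGH X Y

end

section
variable {X₁ X₂ X₃ : Type}

/-- The projection of `R` to the first and second factors. -/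
def e₁₂ (R : Set (X₁ × X₂ × X₃)) : Set (X₁ × X₂) := {p | ∃ x₃, (p.1, p.2, x₃) ∈ R}
/-- The projection of `R` to the first and third factors. -/
def e₁₃ (R : Set (X₁ × X₂ × X₃)) : Set (X₁ × X₃) := {p | ∃ x₂, (p.1, x₂, p.2) ∈ R}
/-- The projection of `R` to the second and third factors. -/
def e₂₃ (R : Set (X₁ × X₂ × X₃)) : Set (X₂ × X₃) := {p | ∃ x₁, (x₁, p.1, p.2) ∈ R}

end

open Q154.ThreeSpaces

theorem dis_nonneg {X Y : Type} [MetricSpace X] [MetricSpace Y] (S : Set (X × Y)) : 0 ≤ dis S := by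
  apply Real.sSup_nonneg
  rintro r ⟨x, y, x', y', _, _, rfl⟩
  exact abs_nonneg _

/-- In the three spaces, the Gromov–Hausdorff distances are at most `1`. -/
theorem two_dGH_le {i j : Fin 3} (hij : i < j) : 2 * dGH (Sp i) (Sp j) ≤ 2 := by
  let S : Set (Sp i × Sp j) := {p | p.2 = tgt i j p.1}
  have hS : IsCorr S := ⟨fun x => ⟨tgt i j x, rfl⟩, fun y => by
    obtain ⟨x, hx⟩ := tgt_surj i j hij y
    exact ⟨x, hx.symm⟩⟩
  have hd : dis S ≤ 2 := by
    apply Real.sSup_le _ (by norm_num)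
    rintro r ⟨x, y, x', y', hxy, hxy', rfl⟩
    have h1 : y = tgt i j x := hxy
    have h2 : y' = tgt i j x' := hxy'
    rw [h1, h2]
    exact real_of_cl (tgt_close i j hij x x')
  have h : sInf {r : ℝ | ∃ S : Set (Sp i × Sp j), IsCorr S ∧ r = dis S} ≤ dis S := by
    refine csInf_le ⟨0, ?_⟩ ⟨S, hS, rfl⟩
    rintro r ⟨T, _, rfl⟩
    exact dis_nonneg T
  unfold dGH
  linarith

/-- An optimal correspondence is contained in the graph of the expected map. -/
theorem optimal_sub {i j : Fin 3} (hij : i < j) {S : Set (Sp i × Sp j)} (hS : IsOptimal S) :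
    ∀ x y, (x, y) ∈ S → y = tgt i j x := by
  have hd : dis S ≤ 2 := hS.2.le.trans (two_dGH_le hij)
  refine rel_sub hij (fun x y => (x, y) ∈ S) hS.1.1 ?_
  intro x y x' y' h1 h2
  apply cl_of_real
  refine le_trans ?_ hd
  refine le_csSup ?_ ⟨x, y, x', y', h1, h2, rfl⟩
  refine ((Set.finite_univ (α := (Sp i × Sp j) × (Sp i × Sp j))).image
    (fun q => |dist q.1.1 q.2.1 - dist q.1.2 q.2.2|)).bddAbove.mono ?_
  rintro r ⟨a, b, c, d, _, _, rfl⟩
  exact ⟨((a, b), (c, d)), Set.mem_univ _, rfl⟩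

/-- There are three compact metric spaces (with four points each) such that no subset of their
product has optimal correspondences as its three projections. -/
theorem result :
    ∃ (X₁ X₂ X₃ : Type) (_ : MetricSpace X₁) (_ : MetricSpace X₂) (_ : MetricSpace X₃),
      (CompactSpace X₁ ∧ Nonempty X₁) ∧ (CompactSpace X₂ ∧ Nonempty X₂) ∧
      (CompactSpace X₃ ∧ Nonempty X₃) ∧
      Nat.card X₁ = 4 ∧ Nat.card X₂ = 4 ∧ Nat.card X₃ = 4 ∧
      ¬ ∃ R : Set (X₁ × X₂ × X₃),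
        IsOptimal (e₁₂ R) ∧ IsOptimal (e₁₃ R) ∧ IsOptimal (e₂₃ R) := by
  refine ⟨Sp 0, Sp 1, Sp 2, instMetric 0, instMetric 1, instMetric 2,
    ⟨inferInstance, inferInstance⟩, ⟨inferInstance, inferInstance⟩,
    ⟨inferInstance, inferInstance⟩, ?_, ?_, ?_, ?_⟩
  · exact Nat.card_eq_fintype_card.trans (Fintype.card_fin 4)
  · exact Nat.card_eq_fintype_card.trans (Fintype.card_fin 4)
  · exact Nat.card_eq_fintype_card.trans (Fintype.card_fin 4)
  · rintro ⟨R, h12, h13, h23⟩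
    obtain ⟨x₂, x₃, hR⟩ := h12.1.1 (0 : Fin 4)
    have k12 : x₂ = tgt 0 1 (0 : Fin 4) := optimal_sub (by decide) h12 _ _ ⟨x₃, hR⟩
    have k13 : x₃ = tgt 0 2 (0 : Fin 4) := optimal_sub (by decide) h13 _ _ ⟨x₂, hR⟩
    have k23 : x₃ = tgt 1 2 x₂ := optimal_sub (by decide) h23 _ _ ⟨_, hR⟩
    have : tgt 1 2 (tgt 0 1 (0 : Fin 4)) ≠ tgt 0 2 (0 : Fin 4) := by decide
    apply this
    rw [← k13, k23, k12]

end Pool.Agent.Results.MP_029391_gt.FourPointSpaces
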